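import Pool.Agent.TH794.GBK.Trans
import Pool.Agent.W788.BK.Flat1
import Pool.Agent.W193.BK.ES
import Pool.Agent.W240.BK.Var
import Pool.Agent.W540.BK.Fac
import Pool.Agent.W240.BK.Fluct
import Pool.Agent.W340.BK.Conc
import Pool.Agent.W918.BK.Osc
import Pool.Agent.W240.BK.Two
import Pool.Agent.W465.BK.QB
import Pool.Agent.W475.BK.Low
import Pool.Agent.W975.BK.Sup
import Pool.Agent.W790.BK.ADM
import Pool.Agent.W475.BK.Inv
import Pool.Agent.W351.BK.Mb
import Pool.Agent.W363.BK.Site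
import Pool.Agent.W261.BK.Third

/-! Flat spectral measures beyond the kinetic scale, unbounded disorder. -/

set_option autoImplicit false
set_option linter.unusedSectionVars false

open scoped BigOperators
open MeasureTheory

namespace Pool.Agent.TH794.GBK

open Pool.Agent.W788.BK Pool.Agent.W788.LD.Main Pool.Agent.W788.LD.Spec
open Pool.Agent.H4R2.LO (Zd)
open Pool.Agent.H4R2

variable {d : ℕ}

/-- the engine -/
theorem eng (d : ℕ) (hd : 3 ≤ d) : ∃ y0 : ℝ, ∀ y : ℝ, y0 ≤ y →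
    ∀ (ν : Measure ℝ), IsProbabilityMeasure ν → (∀ᵐ s ∂ν, |s| ≤ 1) → ∫ s, s ∂ν = 0 →
    ∃ G : Set (Zd d → ℝ), MeasurableSet G ∧
      1 - Real.exp (-Real.exp (y / 100)) ≤ (Measure.infinitePi fun _ : Zd d => ν).real G ∧
      ∀ ξ ∈ G, SM1 d (Real.exp (-1 * y)) (Real.exp (Real.exp (y / 100)))
        (Real.exp (-(17 / 8) * y)) (192 * (C1 * (17 / 8 * y))) ξ :=
  engine (Pool.Agent.W261.BK.third Pool.Agent.W540.BK.fac)
    (Pool.Agent.W240.BK.fluct (Pool.Agent.W240.BK.var Pool.Agent.W193.BK.ES.es))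
    Pool.Agent.W475.BK.inv Pool.Agent.W351.BK.mb
    (Pool.Agent.W340.BK.Conc.conc Pool.Agent.W193.BK.ES.es)
    Pool.Agent.W975.BK.sup Pool.Agent.W363.BK.site
    (Pool.Agent.W465.BK.qb (Pool.Agent.W240.BK.two Pool.Agent.W918.BK.Osc.osc))
    Pool.Agent.W475.BK.low Pool.Agent.W790.BK.ADM.adm d hd 1 one_pos

/-- clipping -/
noncomputable def clip (b s : ℝ) : ℝ := max (-b) (min b s)

theorem clip_abs (b s : ℝ) (hb : 0 ≤ b) : |clip b s| ≤ b := by
  unfold clip
  rw [abs_le]
  exact ⟨le_max_left _ _, max_le (by linarith) (min_le_left _ _)⟩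

theorem clip_eq (b s : ℝ) (h : |s| ≤ b) : clip b s = s := by
  unfold clip
  rw [abs_le] at h
  rw [min_eq_right h.2, max_eq_right h.1]

theorem clip_meas (b : ℝ) : Measurable (clip b) := by
  unfold clip
  fun_prop

/-- the numbers -/
theorem nums (d : ℕ) (A y0 : ℝ) (hA : 0 < A) : ∃ Y0 : ℝ, ∀ Y : ℝ, Y0 ≤ Y →
    400000 ≤ Y ∧ y0 ≤ 99 / 100 * Y - Real.log 2 ∧
    Real.exp (-Real.exp ((99 / 100 * Y - Real.log 2) / 100)) ≤
      1 / 2 * Real.exp (-Real.exp (Y / 200)) ∧
    Real.exp (Y / 200) ≤ Real.exp ((99 / 100 * Y - Real.log 2) / 100) ∧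
    2 * (Real.exp (Real.exp (Y / 200)) + 2 * (2 * d / Real.exp (-(17 / 8) * (99 / 100 * Y -
      Real.log 2)))) + 1 ≤ Real.exp (2 * Real.exp (Y / 200)) ∧
    Real.exp (2 * Real.exp (Y / 200)) ^ d * (A * Real.exp (-Real.exp (Y / 100))) ≤
      1 / 2 * Real.exp (-Real.exp (Y / 200)) := by
  refine ⟨max (max 400000 (2 * |y0| + 2)) (max (8 * d + 8) (2 * A)), fun Y hY => ?_⟩
  have h1 : 400000 ≤ Y := le_trans (le_trans (le_max_left _ _) (le_max_left _ _)) hY
  have h2 : 2 * |y0| + 2 ≤ Y := le_trans (le_trans (le_max_right _ _) (le_max_left _ _)) hY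
  have h3 : 8 * (d : ℝ) + 8 ≤ Y := le_trans (le_trans (le_max_left _ _) (le_max_right _ _)) hY
  have h4 : 2 * A ≤ Y := le_trans (le_trans (le_max_right _ _) (le_max_right _ _)) hY
  have l1 := Real.log_two_lt_d9
  have l2 := Real.log_two_gt_d9
  have h5 : y0 ≤ 99 / 100 * Y - Real.log 2 := by
    have := le_abs_self y0
    have := abs_nonneg y0
    linarith
  obtain ⟨X, hX⟩ : ∃ X, X = Real.exp (Y / 200) := ⟨_, rfl⟩
  have hX0 : 3 * Y + Real.log (8 * d + 8) ≤ X := by
    have e1 := Real.quadratic_le_exp_of_nonneg (show 0 ≤ Y / 200 by linarith)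
    rw [← hX] at e1
    have e2 : Real.log (8 * d + 8) ≤ 8 * d + 8 := by
      have := Real.log_le_sub_one_of_pos (show (0 : ℝ) < 8 * d + 8 by positivity)
      linarith
    nlinarith
  have hlogd : 0 ≤ Real.log (8 * d + 8) := by
    apply Real.log_nonneg
    have : (0 : ℝ) ≤ d := Nat.cast_nonneg d
    linarith
  have hXY : 3 * Y ≤ X := by linarith
  have h6 : 2 * X ≤ Real.exp ((99 / 100 * Y - Real.log 2) / 100) := by
    have e1 : 2 * X = Real.exp (Real.log 2 + Y / 200) := by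
      rw [Real.exp_add, Real.exp_log (by norm_num), hX]
    rw [e1]
    apply Real.exp_le_exp.2
    linarith
  have hhalf : Real.exp (-1) ≤ 1 / 2 := by
    rw [Real.exp_neg, one_div]
    apply inv_anti₀ (by norm_num)
    have := Real.exp_one_gt_d9
    linarith
  refine ⟨h1, h5, ?_, ?_, ?_, ?_⟩
  · rw [← hX]
    have e1 : Real.exp (-Real.exp ((99 / 100 * Y - Real.log 2) / 100)) ≤
        Real.exp (-1 + -X) := by
      apply Real.exp_le_exp.2
      linarith
    rw [Real.exp_add] at e1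
    refine e1.trans ?_
    gcongr
  · rw [← hX]
    linarith
  · rw [← hX]
    have e1 : 2 * (d : ℝ) / Real.exp (-(17 / 8) * (99 / 100 * Y - Real.log 2)) ≤
        2 * d * Real.exp (3 * Y) := by
      rw [div_eq_mul_inv, ← Real.exp_neg]
      gcongr
      linarith
    have e2 : 8 * (d : ℝ) * Real.exp (3 * Y) ≤ Real.exp X := by
      calc 8 * (d : ℝ) * Real.exp (3 * Y) ≤ (8 * d + 8) * Real.exp (3 * Y) := by
            gcongr
            linarith
        _ = Real.exp (Real.log (8 * d + 8) + 3 * Y) := by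
            rw [Real.exp_add, Real.exp_log (by positivity)]
        _ ≤ Real.exp X := by
            apply Real.exp_le_exp.2
            linarith
    have e3 : 4 ≤ Real.exp X := by
      have := Real.add_one_le_exp X
      linarith
    have e4 : Real.exp (2 * X) = Real.exp X * Real.exp X := by
      rw [← Real.exp_add]
      ring_nf
    rw [e4]
    nlinarith
  · rw [← hX]
    have e1 : Real.exp (Y / 100) = X ^ 2 := by
      rw [hX, ← Real.exp_nat_mul]
      congr 1
      push_cast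
      ring
    rw [e1, ← Real.exp_nat_mul]
    have hA' : 2 * A ≤ Real.exp X := by
      have := Real.add_one_le_exp X
      linarith
    have e2 : A ≤ 1 / 2 * Real.exp X := by linarith
    calc Real.exp (d * (2 * X)) * (A * Real.exp (-X ^ 2)) ≤
        Real.exp (d * (2 * X)) * ((1 / 2 * Real.exp X) * Real.exp (-X ^ 2)) := by gcongr
      _ = 1 / 2 * Real.exp (d * (2 * X) + X + -X ^ 2) := by
          rw [Real.exp_add, Real.exp_add]
          ring
      _ ≤ 1 / 2 * Real.exp (-X) := by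
          gcongr
          nlinarith

/-- **the core** -/
theorem core (d : ℕ) (hd : 3 ≤ d) (A : ℝ) (hA : 0 < A) :
    ∃ Y0 K : ℝ, 1 ≤ Y0 ∧ 0 < K ∧ ∀ Y : ℝ, Y0 ≤ Y → ∀ (μ : Measure ℝ), IsProbabilityMeasure μ →
      (∀ r : ℝ, 0 ≤ r → μ.real {s | r < |s|} ≤ A * Real.exp (-r)) →
      ∃ G : Set (Zd d → ℝ), MeasurableSet G ∧
        1 - Real.exp (-Real.exp (Y / 200)) ≤ (Measure.infinitePi fun _ : Zd d => μ).real G ∧
        ∀ ξ ∈ G,
        (∀ (f : Zd d → ℂ) (B : Finset (Zd d)),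
          (∀ a ∈ B, ‖a‖ ≤ Real.exp (Real.exp (Y / 200))) → (∀ a, a ∉ B → f a = 0) →
          ∀ m : Measure ℝ, IsFiniteMeasure m →
          (∀ z : ℂ, z.im ≠ 0 → ∃ u : Zd d → ℂ, (Summable fun x => ‖u x‖ ^ 2) ∧
            (∀ x, -S u x + ((-(Real.exp (-Y) * ξ x) : ℝ) : ℂ) * u x - z * u x = f x) ∧
            ∫ t : ℝ, ((t : ℂ) - z)⁻¹ ∂m = ∑' x, (starRingEnd ℂ) (f x) * u x) →
          ∀ E s : ℝ, Real.exp (-(21 / 10) * Y) ≤ s → m.real (Set.Icc (E - s) (E + s)) ≤
            K * Y * s * (∑ a ∈ B, ‖f a‖) ^ 2) ∧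
        (∀ (E : ℝ) (u : Zd d → ℂ), (Summable fun x => ‖u x‖ ^ 2) →
          (∀ x, -S u x + ((-(Real.exp (-Y) * ξ x) : ℝ) : ℂ) * u x = (E : ℂ) * u x) →
          ∀ a : Zd d, ‖a‖ ≤ Real.exp (Real.exp (Y / 200)) →
          ‖u a‖ ^ 2 ≤ K * Y * Real.exp (-(21 / 10) * Y) * ∑' x, ‖u x‖ ^ 2) := by
  obtain ⟨y0, h0⟩ := eng d hd
  obtain ⟨Y0, hY0⟩ := nums d A y0 hA
  have hC1 := C1_ge
  refine ⟨max Y0 1, 20 * (2 * (192 * (C1 * (17 / 8)))), le_max_right _ _, by positivity, ?_⟩
  intro Y hY μ hμ htail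
  obtain ⟨n1, n2, n3, n4, n5, n6⟩ := hY0 Y ((le_max_left _ _).trans hY)
  obtain ⟨y, hy⟩ : ∃ y, y = 99 / 100 * Y - Real.log 2 := ⟨_, rfl⟩
  rw [← hy] at n2 n3 n4 n5
  have l1 := Real.log_two_lt_d9
  have l2 := Real.log_two_gt_d9
  have hyY : y ≤ Y := by rw [hy]; linarith
  have hy1 : 1 ≤ y := by rw [hy]; linarith
  obtain ⟨b, hb⟩ : ∃ b, b = Real.exp (Y / 100) := ⟨_, rfl⟩
  have hb0 : 0 < b := by rw [hb]; positivity
  obtain ⟨σ, hσ⟩ : ∃ σ, σ = Real.exp (-Y) := ⟨_, rfl⟩
  have hσb : Real.exp (-1 * y) = 2 * b * σ := by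
    have e1 : (2 : ℝ) * b * σ = Real.exp (Real.log 2 + (Y / 100 + -Y)) := by
      rw [Real.exp_add, Real.exp_add, Real.exp_log (by norm_num), hb, hσ]
      ring
    rw [e1]
    congr 1
    rw [hy]
    ring
  -- the clipped law
  obtain ⟨M0, hM0⟩ : ∃ M0, M0 = ∫ s, clip b s ∂μ := ⟨_, rfl⟩
  have hcm := clip_meas b
  have hint : Integrable (fun s : ℝ => clip b s) μ := by
    refine Integrable.of_bound (C := b) hcm.aestronglyMeasurable (Filter.Eventually.of_forall ?_)
    intro s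
    rw [Real.norm_eq_abs]
    exact clip_abs b s hb0.le
  have hM0b : |M0| ≤ b := by
    rw [hM0, ← Real.norm_eq_abs]
    have h1 := norm_integral_le_of_norm_le_const (μ := μ) (f := fun s : ℝ => clip b s) (C := b)
      (Filter.Eventually.of_forall (by
        intro s
        rw [Real.norm_eq_abs]
        exact clip_abs b s hb0.le))
    rw [probReal_univ, mul_one] at h1
    exact h1
  obtain ⟨F, hF⟩ : ∃ F : ℝ → ℝ, F = fun s => (clip b s - M0) / (2 * b) := ⟨_, rfl⟩
  have hFm : Measurable F := by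
    rw [hF]
    fun_prop
  have hFb : ∀ s, |F s| ≤ 1 := by
    intro s
    rw [hF]
    simp only
    rw [abs_div, abs_of_pos (show 0 < 2 * b by positivity), div_le_one (by positivity)]
    have h1 := abs_sub (clip b s) M0
    have h2 := clip_abs b s hb0.le
    linarith
  have hνp : IsProbabilityMeasure (μ.map F) :=
    Measure.isProbabilityMeasure_map hFm.aemeasurable
  have hνb : ∀ᵐ s ∂(μ.map F), |s| ≤ 1 := by
    rw [ae_map_iff hFm.aemeasurable (measurableSet_le (by fun_prop) (by fun_prop))]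
    exact Filter.Eventually.of_forall hFb
  have hν0 : ∫ s, s ∂(μ.map F) = 0 := by
    rw [integral_map hFm.aemeasurable (by fun_prop), hF, integral_div,
      integral_sub hint (integrable_const _), integral_const, probReal_univ, one_smul, hM0,
      sub_self, zero_div]
  obtain ⟨G1, hG1, hP1, hbd⟩ := h0 y n2 _ hνp hνb hν0
  have hTm : Measurable (fun (ω : Zd d → ℝ) x => F (ω x)) := by fun_prop
  have hlaw : (Measure.infinitePi fun _ : Zd d => μ).map (fun ω x => F (ω x)) =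
      Measure.infinitePi fun _ : Zd d => μ.map F :=
    Measure.infinitePi_map_pi (μ := fun _ : Zd d => μ)
      (f := fun _ (s : ℝ) => F s) (fun _ => by fun_prop)
  obtain ⟨G1', hG1'⟩ : ∃ G1', G1' = (fun (ω : Zd d → ℝ) x => F (ω x)) ⁻¹' G1 := ⟨_, rfl⟩
  have hG1m : MeasurableSet G1' := by
    rw [hG1']
    exact hTm hG1
  have hPP1 : 1 - Real.exp (-Real.exp (y / 100)) ≤
      (Measure.infinitePi fun _ : Zd d => μ).real G1' := by
    have h1 : (Measure.infinitePi fun _ : Zd d => μ).real G1' =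
        (Measure.infinitePi fun _ : Zd d => μ.map F).real G1 := by
      rw [hG1', ← hlaw, map_measureReal_apply hTm hG1]
    rw [h1]
    exact hP1
  -- the sites
  obtain ⟨t, ht⟩ : ∃ t, t = Real.exp (-(17 / 8) * y) := ⟨_, rfl⟩
  have ht0 : 0 < t := by rw [ht]; positivity
  rw [← ht] at n5
  obtain ⟨ρ, hρ⟩ : ∃ ρ, ρ = Real.exp (Real.exp (Y / 200)) := ⟨_, rfl⟩
  have hρ0 : 0 < ρ := by rw [hρ]; positivity
  have hd0 : (3 : ℝ) ≤ d := by exact_mod_cast hd
  obtain ⟨ℓ, hℓ⟩ : ∃ ℓ, ℓ = 2 * d / t := ⟨_, rfl⟩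
  have hℓ0 : 0 < ℓ := by rw [hℓ]; positivity
  rw [← hρ, ← hℓ] at n5
  obtain ⟨R, hR⟩ : ∃ R, R = ρ + 2 * ℓ := ⟨_, rfl⟩
  have hR0 : 0 < R := by rw [hR]; positivity
  rw [← hR] at n5
  obtain ⟨B0, hB0⟩ : ∃ B0 : Finset (Zd d), B0 = LO.bx (0 : Zd d) ⌊R⌋₊ := ⟨_, rfl⟩
  have hSm : ∀ a : Zd d, MeasurableSet {ω : Zd d → ℝ | b < |ω a|} := fun a =>
    measurableSet_lt measurable_const (by fun_prop)
  have hSa : ∀ a : Zd d, (Measure.infinitePi fun _ : Zd d => μ).real {ω : Zd d → ℝ | b < |ω a|} ≤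
      A * Real.exp (-b) := by
    intro a
    have h1 : (Measure.infinitePi fun _ : Zd d => μ).real {ω : Zd d → ℝ | b < |ω a|} =
        μ.real {s | b < |s|} := by
      have h2 := Measure.infinitePi_map_eval (fun _ : Zd d => μ) a
      have h3 : {ω : Zd d → ℝ | b < |ω a|} = (Function.eval a) ⁻¹' {s : ℝ | b < |s|} := rfl
      rw [h3, ← map_measureReal_apply (measurable_pi_apply a)
        (measurableSet_lt measurable_const (by fun_prop)), h2]
    rw [h1]
    exact htail b hb0.le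
  obtain ⟨G2, hG2⟩ : ∃ G2 : Set (Zd d → ℝ), G2 = ⋂ a ∈ B0, {ω : Zd d → ℝ | b < |ω a|}ᶜ :=
    ⟨_, rfl⟩
  have hG2m : MeasurableSet G2 := by
    rw [hG2]
    exact Finset.measurableSet_biInter _ fun a _ => (hSm a).compl
  have hP2 : (Measure.infinitePi fun _ : Zd d => μ).real G2ᶜ ≤
      1 / 2 * Real.exp (-Real.exp (Y / 200)) := by
    have e1 : G2ᶜ = ⋃ a ∈ B0, {ω : Zd d → ℝ | b < |ω a|} := by
      rw [hG2]
      simp only [Set.compl_iInter, compl_compl]
    rw [e1]
    refine (measureReal_biUnion_finset_le _ _).trans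
      ((Finset.sum_le_sum fun a _ => hSa a).trans ?_)
    rw [Finset.sum_const, nsmul_eq_mul, hB0, LO.Em.card_bx]
    rw [← hb] at n6
    refine le_trans ?_ n6
    apply mul_le_mul_of_nonneg_right _ (by positivity)
    push_cast
    apply pow_le_pow_left₀ (by positivity)
    have := Nat.floor_le (show 0 ≤ R by linarith)
    linarith
  refine ⟨G1' ∩ G2, hG1m.inter hG2m, ?_, ?_⟩
  · have h1 := probReal_add_probReal_compl (μ := Measure.infinitePi fun _ : Zd d => μ)
      (hG1m.inter hG2m)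
    have h2 := probReal_add_probReal_compl (μ := Measure.infinitePi fun _ : Zd d => μ) hG1m
    have h3 : (Measure.infinitePi fun _ : Zd d => μ).real (G1' ∩ G2)ᶜ ≤
        (Measure.infinitePi fun _ : Zd d => μ).real G1'ᶜ +
        (Measure.infinitePi fun _ : Zd d => μ).real G2ᶜ := by
      rw [Set.compl_inter]
      exact measureReal_union_le _ _
    linarith
  · intro ξ hξ
    have hclip : ∀ x : Zd d, ‖x‖ ≤ R → clip b (ξ x) = ξ x := by
      intro x hx
      have hxB : x ∈ B0 := by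
        rw [hB0]
        exact Pool.Agent.W788.Gen3.norm_zd x R hx
      have h1 := hξ.2
      rw [hG2] at h1
      have h2 := Set.mem_iInter₂.1 h1 x hxB
      simp only [Set.mem_compl_iff, Set.mem_ofPred_eq, not_lt] at h2
      exact clip_eq b _ h2
    have h1 : SM1 d (Real.exp (-1 * y)) (Real.exp (Real.exp (y / 100)))
        (Real.exp (-(17 / 8) * y)) (192 * (C1 * (17 / 8 * y))) (fun x => F (ξ x)) := by
      apply hbd
      have h2 := hξ.1
      rw [hG1'] at h2
      exact h2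
    have h1' : SM1 d (Real.exp (-1 * y)) ρ t (192 * (C1 * (17 / 8 * y))) (fun x => F (ξ x)) := by
      intro E u f hu hf heq a ha
      rw [ht]
      refine h1 E u f hu hf heq a (ha.trans ?_)
      rw [hρ]
      exact Real.exp_le_exp.2 n4
    have h2 := trans (Real.exp (-1 * y)) ρ t (192 * (C1 * (17 / 8 * y))) ℓ ht0 (by positivity) hℓ0
      (by
        rw [hℓ]
        have : t * (2 * d / t) = 2 * d := by field_simp
        linarith) (fun x => (ξ x - M0) / (2 * b)) _ (by
          intro x hx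
          rw [hF]
          simp only
          rw [hclip x (by rw [hR]; exact hx)]) h1'
    have ht1 : t ≤ 1 / 2 := by
      have h1 : t ≤ Real.exp (-1) := by
        rw [ht]
        apply Real.exp_le_exp.2
        linarith
      have h2 : Real.exp (-1) ≤ 1 / 2 := by
        rw [Real.exp_neg, one_div]
        apply inv_anti₀ (by norm_num)
        have := Real.exp_one_gt_d9
        linarith
      linarith
    have htt : t ≤ Real.exp (-(21 / 10) * Y) := by
      rw [ht]
      apply Real.exp_le_exp.2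
      rw [hy]
      linarith
    obtain ⟨f1, f2⟩ := flat1 (Real.exp (-1 * y)) ρ t _ ht0 ht1 (by positivity) _ h2
      (fun x => -(Real.exp (-Y) * ξ x)) (-(Real.exp (-Y) * M0)) (fun x => by
        rw [hσb, hσ]
        field_simp
        ring)
    rw [← hρ]
    constructor
    · intro f B hB hfB m hm hres E s hs
      refine (f1 f B hB hfB m hm hres E s (htt.trans hs)).trans ?_
      have hs0 : 0 < s := lt_of_lt_of_le (Real.exp_pos _) hs
      apply mul_le_mul_of_nonneg_right _ (sq_nonneg _)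
      apply mul_le_mul_of_nonneg_right _ hs0.le
      have : C1 * y ≤ C1 * Y := by gcongr
      linarith
    · intro E u hu heq a ha
      refine (f2 E u hu heq a ha).trans ?_
      have h3 : 0 ≤ ∑' x, ‖u x‖ ^ 2 := tsum_nonneg fun x => by positivity
      apply mul_le_mul_of_nonneg_right _ h3
      apply mul_le_mul _ htt ht0.le (by positivity)
      have h4 : C1 * y ≤ C1 * Y := by gcongr
      have h5 : 0 ≤ C1 * Y := by positivity
      linarith

end Pool.Agent.TH794.GBK
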