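import Pool.Agent.W788.BK.Lat

/-! Local smoothing depends on the potential only near the box. -/

set_option autoImplicit false
set_option linter.unusedSectionVars false

open scoped BigOperators

namespace Pool.Agent.TH794.GBK

open Pool.Agent.W788.BK Pool.Agent.W788.MFP.Cut Pool.Agent.W788.LD.Main
open Pool.Agent.H4R2.LO (Zd)

variable {d : ℕ}

/-- the error of one step -/
theorem stepZ (ℓ : ℝ) (hℓ : 0 < ℓ) (a x y : Zd d) (h : ‖x - y‖ ≤ 1) (s : ℝ) :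
    ((φ ℓ (x - a) - φ ℓ (y - a)) * s) ^ 2 ≤ (1 / ℓ) ^ 2 * s ^ 2 := by
  rw [mul_pow]
  apply mul_le_mul_of_nonneg_right _ (sq_nonneg _)
  rw [← sq_abs]
  apply pow_le_pow_left₀ (abs_nonneg _)
  apply φ_lip ℓ hℓ
  rwa [sub_sub_sub_cancel_right]

/-- **the transfer** -/
theorem trans (σ ρ t g ℓ : ℝ) (ht : 0 < t) (hg : 0 ≤ g) (hℓ : 0 < ℓ) (hℓt : 2 * d ≤ t * ℓ)
    (ξ ξ' : Zd d → ℝ) (hξ : ∀ x, ‖x‖ ≤ ρ + 2 * ℓ → ξ x = ξ' x) (h : SM1 d σ ρ t g ξ') :
    SM1 d σ ρ t (2 * g) ξ := by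
  intro E u f hu hf heq a ha
  obtain ⟨v, hv⟩ : ∃ v : Zd d → ℝ, v = fun x => φ ℓ (x - a) * u x := ⟨_, rfl⟩
  obtain ⟨r, hr⟩ : ∃ r : Zd d → ℝ, r = fun x => ∑ i : Fin d,
    ((φ ℓ (x + Pi.single i 1 - a) - φ ℓ (x - a)) * u (x + Pi.single i 1) +
     (φ ℓ (x - Pi.single i 1 - a) - φ ℓ (x - a)) * u (x - Pi.single i 1)) := ⟨_, rfl⟩
  have hS0 : 0 ≤ ∑' x, u x ^ 2 := tsum_nonneg fun x => sq_nonneg _
  have hF0 : 0 ≤ ∑' x, f x ^ 2 := tsum_nonneg fun x => sq_nonneg _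
  -- the cut off function
  have hv1 : ∀ x, v x ^ 2 ≤ u x ^ 2 := by
    intro x
    rw [hv]
    simp only
    rw [mul_pow]
    apply mul_le_of_le_one_left (sq_nonneg _)
    exact pow_le_one₀ (φ_nonneg _ _) (φ_le_one _ _)
  have hvs : Summable fun x => v x ^ 2 := Summable.of_nonneg_of_le (fun x => sq_nonneg _) hv1 hu
  have hv2 : ∑' x, v x ^ 2 ≤ ∑' x, u x ^ 2 := hvs.tsum_le_tsum hv1 hu
  -- the shifted functions
  have hup : ∀ i : Fin d, Summable fun x : Zd d => u (x + Pi.single i 1) ^ 2 := fun i =>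
    (Equiv.addRight (Pi.single i 1 : Zd d)).summable_iff.2 hu
  have hum : ∀ i : Fin d, Summable fun x : Zd d => u (x - Pi.single i 1) ^ 2 := fun i =>
    (Equiv.subRight (Pi.single i 1 : Zd d)).summable_iff.2 hu
  have hupt : ∀ i : Fin d, ∑' x : Zd d, u (x + Pi.single i 1) ^ 2 = ∑' x, u x ^ 2 := fun i =>
    (Equiv.addRight (Pi.single i 1 : Zd d)).tsum_eq fun x => u x ^ 2
  have humt : ∀ i : Fin d, ∑' x : Zd d, u (x - Pi.single i 1) ^ 2 = ∑' x, u x ^ 2 := fun i =>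
    (Equiv.subRight (Pi.single i 1 : Zd d)).tsum_eq fun x => u x ^ 2
  -- the majorant of the commutator
  obtain ⟨R, hR⟩ : ∃ R : Zd d → ℝ, R = fun x => (d : ℝ) * ∑ i : Fin d,
    (2 * (1 / ℓ) ^ 2 * (u (x + Pi.single i 1) ^ 2 + u (x - Pi.single i 1) ^ 2)) := ⟨_, rfl⟩
  have hRs : Summable R := by
    rw [hR]
    refine Summable.mul_left _ (summable_sum fun i _ => ?_)
    exact ((hup i).add (hum i)).mul_left _
  have hRt : ∑' x, R x = (2 * d / ℓ) ^ 2 * ∑' x, u x ^ 2 := by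
    rw [hR]
    rw [tsum_mul_left, Summable.tsum_finsetSum fun i _ => ((hup i).add (hum i)).mul_left _]
    have e1 : ∀ i : Fin d, ∑' x : Zd d, 2 * (1 / ℓ) ^ 2 *
        (u (x + Pi.single i 1) ^ 2 + u (x - Pi.single i 1) ^ 2) =
        4 * (1 / ℓ) ^ 2 * ∑' x, u x ^ 2 := by
      intro i
      rw [tsum_mul_left, (hup i).tsum_add (hum i), hupt, humt]
      ring
    rw [Finset.sum_congr rfl fun i _ => e1 i, Finset.sum_const, Finset.card_univ,
      Fintype.card_fin, nsmul_eq_mul]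
    ring
  have hrR : ∀ x, r x ^ 2 ≤ R x := by
    intro x
    rw [hr, hR]
    simp only
    refine sq_sum_le_card_mul_sum_sq.trans ?_
    rw [Finset.card_univ, Fintype.card_fin]
    apply mul_le_mul_of_nonneg_left _ (by positivity)
    refine Finset.sum_le_sum fun i _ => ?_
    have s1 := stepZ ℓ hℓ a (x + Pi.single i 1) x (by
      rw [add_sub_cancel_left]
      exact norm_single i) (u (x + Pi.single i 1))
    have s2 := stepZ ℓ hℓ a (x - Pi.single i 1) x (by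
      rw [sub_sub_cancel_left, norm_neg]
      exact norm_single i) (u (x - Pi.single i 1))
    obtain ⟨A, hA⟩ : ∃ A, A = (φ ℓ (x + Pi.single i 1 - a) - φ ℓ (x - a)) *
      u (x + Pi.single i 1) := ⟨_, rfl⟩
    obtain ⟨B, hB⟩ : ∃ B, B = (φ ℓ (x - Pi.single i 1 - a) - φ ℓ (x - a)) *
      u (x - Pi.single i 1) := ⟨_, rfl⟩
    rw [← hA] at s1
    rw [← hB] at s2
    rw [← hA, ← hB]
    have e3 : (A + B) ^ 2 ≤ 2 * (A ^ 2 + B ^ 2) := add_sq_le
    linarith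
  have hrs : Summable fun x => r x ^ 2 := Summable.of_nonneg_of_le (fun x => sq_nonneg _) hrR hRs
  have hr2 : ∑' x, r x ^ 2 ≤ t ^ 2 * ∑' x, u x ^ 2 := by
    refine (hrs.tsum_le_tsum hrR hRs).trans ?_
    rw [hRt]
    apply mul_le_mul_of_nonneg_right _ hS0
    apply pow_le_pow_left₀ (by positivity)
    rw [div_le_iff₀ hℓ]
    exact hℓt
  -- the new right hand side
  obtain ⟨f', hf'⟩ : ∃ f' : Zd d → ℝ, f' = fun x => r x + φ ℓ (x - a) * f x := ⟨_, rfl⟩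
  have hfb : ∀ x, f' x ^ 2 ≤ 2 * r x ^ 2 + 2 * f x ^ 2 := by
    intro x
    rw [hf']
    simp only
    have e1 : (φ ℓ (x - a) * f x) ^ 2 ≤ f x ^ 2 := by
      rw [mul_pow]
      apply mul_le_of_le_one_left (sq_nonneg _)
      exact pow_le_one₀ (φ_nonneg _ _) (φ_le_one _ _)
    nlinarith [sq_nonneg (r x - φ ℓ (x - a) * f x)]
  have hfbs : Summable fun x => 2 * r x ^ 2 + 2 * f x ^ 2 := (hrs.mul_left 2).add (hf.mul_left 2)
  have hfs : Summable fun x => f' x ^ 2 :=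
    Summable.of_nonneg_of_le (fun x => sq_nonneg _) hfb hfbs
  have hf2 : ∑' x, f' x ^ 2 ≤ 2 * (t ^ 2 * ∑' x, u x ^ 2) + 2 * ∑' x, f x ^ 2 := by
    refine (hfs.tsum_le_tsum hfb hfbs).trans ?_
    rw [(hrs.mul_left 2).tsum_add (hf.mul_left 2), tsum_mul_left, tsum_mul_left]
    linarith
  -- the equation
  have heq' : ∀ x, ∑ i, (v (x + Pi.single i 1) + v (x - Pi.single i 1)) + σ * ξ' x * v x =
      E * v x + f' x := by
    intro x
    have h1 := heq x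
    have e1 : ∑ i, (v (x + Pi.single i 1) + v (x - Pi.single i 1)) = r x + φ ℓ (x - a) *
        ∑ i, (u (x + Pi.single i 1) + u (x - Pi.single i 1)) := by
      rw [hv, hr]
      simp only
      rw [Finset.mul_sum, ← Finset.sum_add_distrib]
      exact Finset.sum_congr rfl fun i _ => by ring
    have e2 : σ * ξ' x * v x = φ ℓ (x - a) * (σ * ξ x * u x) := by
      rw [hv]
      simp only
      rcases le_or_gt (2 * ℓ) ‖x - a‖ with hx | hx
      · rw [φ_zero ℓ hℓ _ hx]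
        ring
      · rw [hξ x (by
          have e3 : ‖x‖ ≤ ‖x - a‖ + ‖a‖ := by
            have := norm_add_le (x - a) a
            rwa [sub_add_cancel] at this
          linarith)]
        ring
    rw [e1, e2, hf', hv]
    simp only
    linear_combination (φ ℓ (x - a)) * h1
  have h2 := h E v f' hvs hfs heq' a ha
  have hva : v a = u a := by
    rw [hv]
    simp only
    rw [sub_self, φ_one ℓ hℓ 0 (by rw [norm_zero]; exact hℓ.le), one_mul]
  rw [hva] at h2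
  have ht2 : t⁻¹ * t ^ 2 = t := by
    field_simp
  have hT : 0 ≤ g * (t * ∑' x, u x ^ 2) := by positivity
  calc u a ^ 2 ≤ g * (5 * t * ∑' x, v x ^ 2 + 2 * t⁻¹ * ∑' x, f' x ^ 2) := h2
    _ ≤ g * (5 * t * ∑' x, u x ^ 2 +
        2 * t⁻¹ * (2 * (t ^ 2 * ∑' x, u x ^ 2) + 2 * ∑' x, f x ^ 2)) := by gcongr
    _ = g * (5 * t * ∑' x, u x ^ 2 + 4 * (t⁻¹ * t ^ 2) * ∑' x, u x ^ 2 +
        4 * t⁻¹ * ∑' x, f x ^ 2) := by ring
    _ = g * (9 * t * ∑' x, u x ^ 2 + 4 * t⁻¹ * ∑' x, f x ^ 2) := by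
        rw [ht2]
        ring
    _ ≤ 2 * g * (5 * t * ∑' x, u x ^ 2 + 2 * t⁻¹ * ∑' x, f x ^ 2) := by linarith

end Pool.Agent.TH794.GBK
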